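import Mathlib
import Pool.Agent.Helper66.DS.Defs

set_option autoImplicit false

namespace Pool.Agent.Helper66.DS

open MeasureTheory Set

theorem bathtub {Ω : Type} [MeasurableSpace Ω] (μ : Measure Ω) [IsFiniteMeasure μ]
    (g : Ω → ℝ) (hg : Measurable g) (hg0 : ∀ x, 0 ≤ g x) (hg1 : ∀ x, g x ≤ 1)
    (τ : ℝ) (D' : Set Ω) (hD' : MeasurableSet D') (hm : μ.real D' = μ.real {x | τ ≤ g x}) :
    ∫ x in D', g x ∂μ ≤ ∫ x in {x | τ ≤ g x}, g x ∂μ := by
  have hD : MeasurableSet {x | τ ≤ g x} := measurableSet_le measurable_const hg
  have hint : Integrable g μ := by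
    refine (integrable_const (1 : ℝ)).mono' hg.aestronglyMeasurable ?_
    refine Filter.Eventually.of_forall fun x => ?_
    rw [Real.norm_eq_abs, abs_of_nonneg (hg0 x)]
    exact hg1 x
  have hint' : Integrable (fun x => g x - τ) μ := hint.sub (integrable_const τ)
  have h1 : ∫ x, D'.indicator (fun x => g x - τ) x ∂μ ≤
      ∫ x, {x | τ ≤ g x}.indicator (fun x => g x - τ) x ∂μ := by
    refine integral_mono (hint'.indicator hD') (hint'.indicator hD) ?_
    intro x
    by_cases hx : τ ≤ g x
    · have hx' : x ∈ {x | τ ≤ g x} := hx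
      simp only [Set.indicator_of_mem hx']
      by_cases hx2 : x ∈ D'
      · simp [hx2]
      · simp only [Set.indicator_of_notMem hx2]
        linarith
    · have hx' : x ∉ {x | τ ≤ g x} := hx
      simp only [Set.indicator_of_notMem hx']
      by_cases hx2 : x ∈ D'
      · simp only [Set.indicator_of_mem hx2]
        push Not at hx
        linarith
      · simp [hx2]
  rw [integral_indicator hD', integral_indicator hD,
    integral_sub hint.integrableOn (integrable_const τ),
    integral_sub hint.integrableOn (integrable_const τ),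
    setIntegral_const, setIntegral_const, hm] at h1
  linarith

end Pool.Agent.Helper66.DS
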