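import Mathlib
import Pool.Agent.Helper66.DS.Defs

set_option autoImplicit false

namespace Pool.Agent.Helper66.DS

open MeasureTheory Set

namespace ConeVolx

/-- the cone over a box, cut at height `H` -/
def PP (d : ℕ) (H : ℝ) (a b : Fin d → ℝ) : Set (Fin (d + 1) → ℝ) :=
  {x | 0 < x 0 ∧ x 0 < H ∧ ∀ i : Fin d, a i * x 0 ≤ x i.succ ∧ x i.succ < b i * x 0}

/-- matrix of the linear map which moves the cone over the unit box to the cone over a box -/
def M {d : ℕ} (a b : Fin d → ℝ) : Matrix (Fin (d + 1)) (Fin (d + 1)) ℝ :=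
  Matrix.of fun i j => Fin.cases (if j = 0 then 1 else 0)
    (fun i' => Fin.cases (a i') (fun j' => if i' = j' then b i' - a i' else 0) j) i

lemma M_zero {d : ℕ} (a b : Fin d → ℝ) (j : Fin (d + 1)) : M a b 0 j = if j = 0 then 1 else 0 := by
  simp [M]

lemma M_succ_zero {d : ℕ} (a b : Fin d → ℝ) (i : Fin d) : M a b i.succ 0 = a i := by
  simp [M]

lemma M_succ_succ {d : ℕ} (a b : Fin d → ℝ) (i j : Fin d) :
    M a b i.succ j.succ = if i = j then b i - a i else 0 := by
  simp [M]

lemma det_M {d : ℕ} (a b : Fin d → ℝ) : (M a b).det = ∏ i, (b i - a i) := by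
  rw [Matrix.det_of_isLowerTriangular]
  · rw [Fin.prod_univ_succ, M_zero, if_pos rfl, one_mul]
    refine Finset.prod_congr rfl fun i _ => ?_
    rw [M_succ_succ, if_pos rfl]
  · intro i j hij
    have hij' : i < j := hij
    refine Fin.cases ?_ (fun i' => ?_) i hij'
    · intro h
      rw [M_zero, if_neg (Fin.pos_iff_ne_zero.1 h)]
    · refine Fin.cases ?_ (fun j' => ?_) j
      · intro h
        exact absurd h (Fin.not_lt_zero _)
      · intro h
        rw [M_succ_succ, if_neg]
        intro h'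
        rw [h'] at h
        exact lt_irrefl _ h

lemma L_zero {d : ℕ} (a b : Fin d → ℝ) (x : Fin (d + 1) → ℝ) :
    (Matrix.toLin' (M a b)) x 0 = x 0 := by
  rw [Matrix.toLin'_apply, Matrix.mulVec, dotProduct, Fin.sum_univ_succ, M_zero, if_pos rfl]
  simp [M_zero, Fin.succ_ne_zero]

lemma L_succ {d : ℕ} (a b : Fin d → ℝ) (x : Fin (d + 1) → ℝ) (i : Fin d) :
    (Matrix.toLin' (M a b)) x i.succ = a i * x 0 + (b i - a i) * x i.succ := by
  rw [Matrix.toLin'_apply, Matrix.mulVec, dotProduct, Fin.sum_univ_succ, M_succ_zero]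
  simp [M_succ_succ]

lemma vol_PP (d : ℕ) (H : ℝ) (a b : Fin d → ℝ) (hab : ∀ i, a i ≤ b i) :
    volume (PP d H a b) =
      ENNReal.ofReal (∏ i, (b i - a i)) * volume (PP d H (fun _ => 0) (fun _ => 1)) := by
  by_cases h : ∃ i, a i = b i
  · obtain ⟨i, hi⟩ := h
    have h1 : PP d H a b = ∅ := by
      ext x
      simp only [PP, Set.mem_ofPred_eq, Set.mem_empty_iff_false, iff_false]
      rintro ⟨_, _, h2⟩
      have := h2 i
      rw [hi] at this
      linarith
    have h2 : ∏ i, (b i - a i) = 0 := Finset.prod_eq_zero (Finset.mem_univ i) (by rw [hi, sub_self])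
    rw [h1, h2, measure_empty, ENNReal.ofReal_zero, zero_mul]
  · push Not at h
    have hlt : ∀ i, 0 < b i - a i := fun i => sub_pos.2 (lt_of_le_of_ne (hab i) (h i))
    have himg : (Matrix.toLin' (M a b)) '' (PP d H (fun _ => 0) (fun _ => 1)) = PP d H a b := by
      ext y
      constructor
      · rintro ⟨x, ⟨h0, h1, h2⟩, rfl⟩
        refine ⟨by rw [L_zero]; exact h0, by rw [L_zero]; exact h1, fun i => ?_⟩
        rw [L_zero, L_succ]
        have h3 := h2 i
        rw [zero_mul, one_mul] at h3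
        have h4 := hlt i
        constructor
        · have := mul_nonneg h4.le h3.1
          linarith
        · have := mul_lt_mul_of_pos_left h3.2 h4
          linarith
      · rintro ⟨h0, h1, h2⟩
        refine ⟨Fin.cons (y 0) (fun i => (y i.succ - a i * y 0) / (b i - a i)), ⟨?_, ?_, ?_⟩, ?_⟩
        · simpa using h0
        · simpa using h1
        · intro i
          have h3 := h2 i
          have h4 := hlt i
          simp only [Fin.cons_zero, Fin.cons_succ, zero_mul, one_mul]
          constructor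
          · exact div_nonneg (by linarith) h4.le
          · rw [div_lt_iff₀ h4]
            linarith
        · funext j
          refine Fin.cases ?_ (fun i => ?_) j
          · rw [L_zero, Fin.cons_zero]
          · rw [L_succ, Fin.cons_zero, Fin.cons_succ]
            have h4 := (hlt i).ne'
            field_simp
            ring
    rw [← himg, Measure.addHaar_image_linearMap, LinearMap.det_toLin', det_M,
      abs_of_nonneg (Finset.prod_nonneg fun i _ => (hlt i).le)]

lemma vol_PP_lt_top (d : ℕ) : volume (PP d 1 (fun _ => 0) (fun _ => 1)) ≠ ⊤ := by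
  have h1 : PP d 1 (fun _ => 0) (fun _ => 1) ⊆ Set.Icc (0 : Fin (d + 1) → ℝ) 1 := by
    rintro x ⟨h0, h1, h2⟩
    rw [Set.mem_Icc, Pi.le_def, Pi.le_def]
    constructor
    · intro j
      refine Fin.cases ?_ (fun i => ?_) j
      · exact h0.le
      · have := (h2 i).1
        rw [zero_mul] at this
        exact this
    · intro j
      refine Fin.cases ?_ (fun i => ?_) j
      · exact h1.le
      · have := (h2 i).2
        rw [one_mul] at this
        exact (this.trans h1).le
  exact ne_top_of_le_ne_top (isCompact_Icc.measure_lt_top).ne (measure_mono h1)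

lemma vol_PP_pos (d : ℕ) (H : ℝ) (hH : 0 < H) : 0 < volume (PP d H (fun _ => 0) (fun _ => 1)) := by
  have hopen : IsOpen {x : Fin (d + 1) → ℝ | 0 < x 0 ∧ x 0 < H ∧ ∀ i : Fin d, 0 < x i.succ ∧
      x i.succ < x 0} := by
    refine IsOpen.inter (isOpen_lt continuous_const (continuous_apply 0)) ?_
    refine IsOpen.inter (isOpen_lt (continuous_apply 0) continuous_const) ?_
    have : {x : Fin (d + 1) → ℝ | ∀ i : Fin d, 0 < x i.succ ∧ x i.succ < x 0} =
        ⋂ i : Fin d, {x : Fin (d + 1) → ℝ | 0 < x i.succ ∧ x i.succ < x 0} := by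
      ext x; simp
    change IsOpen {x : Fin (d + 1) → ℝ | ∀ i : Fin d, 0 < x i.succ ∧ x i.succ < x 0}
    rw [this]
    refine isOpen_iInter_of_finite fun i => ?_
    exact IsOpen.inter (isOpen_lt continuous_const (continuous_apply _))
      (isOpen_lt (continuous_apply _) (continuous_apply 0))
  have hne : {x : Fin (d + 1) → ℝ | 0 < x 0 ∧ x 0 < H ∧ ∀ i : Fin d, 0 < x i.succ ∧
      x i.succ < x 0}.Nonempty := by
    refine ⟨Fin.cons (H / 2) (fun _ => H / 4), ?_, ?_, fun i => ⟨?_, ?_⟩⟩
    · simp only [Fin.cons_zero]; linarith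
    · simp only [Fin.cons_zero]; linarith
    · simp only [Fin.cons_succ]; linarith
    · simp only [Fin.cons_succ, Fin.cons_zero]; linarith
  refine lt_of_lt_of_le (hopen.measure_pos volume hne) (measure_mono ?_)
  rintro x ⟨h0, h1, h2⟩
  refine ⟨h0, h1, fun i => ⟨?_, ?_⟩⟩
  · rw [zero_mul]; exact (h2 i).1.le
  · rw [one_mul]; exact (h2 i).2

lemma measurableSet_coneCell {d : ℕ} (a b : Fin d → ℝ) : MeasurableSet (coneCell a b) := by
  have hc : ∀ j : Fin (d + 1), Measurable fun x : E d => x j := fun j => by fun_prop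
  refine MeasurableSet.inter measurableSet_ball ?_
  refine MeasurableSet.inter (measurableSet_lt measurable_const (hc 0)) ?_
  have : {x : E d | ∀ i : Fin d, a i * x 0 ≤ x i.succ ∧ x i.succ < b i * x 0} =
      ⋂ i : Fin d, {x : E d | a i * x 0 ≤ x i.succ ∧ x i.succ < b i * x 0} := by
    ext x; simp
  change MeasurableSet {x : E d | ∀ i : Fin d, a i * x 0 ≤ x i.succ ∧ x i.succ < b i * x 0}
  rw [this]
  refine MeasurableSet.iInter fun i => ?_
  exact MeasurableSet.inter (measurableSet_le ((hc 0).const_mul _) (hc _))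
    (measurableSet_lt (hc _) ((hc 0).const_mul _))

lemma vol_cone {d : ℕ} (a b : Fin d → ℝ) :
    volume (coneCell a b) = volume ((fun y : Fin (d + 1) → ℝ => (WithLp.toLp 2 y : E d)) ⁻¹'
      coneCell a b) :=
  ((PiLp.volume_preserving_toLp (Fin (d + 1))).measure_preimage
    (measurableSet_coneCell a b).nullMeasurableSet).symm

lemma norm_toLp_sq {d : ℕ} (y : Fin (d + 1) → ℝ) :
    ‖(WithLp.toLp 2 y : E d)‖ ^ 2 = ∑ i, y i ^ 2 := by
  rw [EuclideanSpace.norm_sq_eq]
  refine Finset.sum_congr rfl fun i _ => ?_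
  rw [Real.norm_eq_abs, sq_abs]

end ConeVolx

open ConeVolx

theorem cone_vol (d : ℕ) : ∃ c C : ℝ, 0 < c ∧ 0 < C ∧ ∀ a b : Fin d → ℝ,
    (∀ i, -1 ≤ a i ∧ a i ≤ b i ∧ b i ≤ 1) →
    c * ∏ i, (b i - a i) ≤ volume.real (coneCell a b) ∧
      volume.real (coneCell a b) ≤ C * ∏ i, (b i - a i) := by
  set H1 : ℝ := 1 / ((d : ℝ) + 1) with hH1
  have hd1 : (1 : ℝ) ≤ (d : ℝ) + 1 := by
    have : (0 : ℝ) ≤ (d : ℝ) := Nat.cast_nonneg d
    linarith
  have hH1pos : 0 < H1 := by positivity
  have hH1le : H1 ≤ 1 := by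
    rw [hH1, div_le_one (by linarith)]
    exact hd1
  have hmono : PP d H1 (fun _ => 0) (fun _ => 1) ⊆ PP d 1 (fun _ => 0) (fun _ => 1) := by
    rintro x ⟨h0, h1, h2⟩
    exact ⟨h0, h1.trans_le hH1le, h2⟩
  have hfin := vol_PP_lt_top d
  have hfin1 : volume (PP d H1 (fun _ => 0) (fun _ => 1)) ≠ ⊤ :=
    ne_top_of_le_ne_top hfin (measure_mono hmono)
  refine ⟨volume.real (PP d H1 (fun _ => 0) (fun _ => 1)),
    volume.real (PP d 1 (fun _ => 0) (fun _ => 1)), ?_, ?_, ?_⟩
  · exact ENNReal.toReal_pos (vol_PP_pos d H1 hH1pos).ne' hfin1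
  · exact ENNReal.toReal_pos (vol_PP_pos d 1 one_pos).ne' hfin
  intro a b hab
  have hprod : 0 ≤ ∏ i, (b i - a i) :=
    Finset.prod_nonneg fun i _ => sub_nonneg.2 (hab i).2.1
  set S : Set (Fin (d + 1) → ℝ) := (fun y : Fin (d + 1) → ℝ => (WithLp.toLp 2 y : E d)) ⁻¹'
      coneCell a b with hS
  have hSvol : volume.real (coneCell a b) = volume.real S := by
    unfold Measure.real
    rw [vol_cone]
  have hreal : ∀ H : ℝ, volume.real (PP d H a b) =
      (∏ i, (b i - a i)) * volume.real (PP d H (fun _ => 0) (fun _ => 1)) := by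
    intro H
    unfold Measure.real
    rw [vol_PP d H a b (fun i => (hab i).2.1), ENNReal.toReal_mul, ENNReal.toReal_ofReal hprod]
  have hsub2 : S ⊆ PP d 1 a b := by
    rintro y ⟨h0, h1, h2⟩
    refine ⟨h1, ?_, h2⟩
    have h3 : ‖(WithLp.toLp 2 y : E d)‖ < 1 := by
      have := h0
      rw [ball1, Metric.mem_ball, dist_zero_right] at this
      exact this
    have h4 := PiLp.norm_apply_le (WithLp.toLp 2 y : E d) 0
    have h5 : y 0 ≤ ‖(WithLp.toLp 2 y : E d) 0‖ := le_abs_self (y 0)
    linarith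
  have hsub1 : PP d H1 a b ⊆ S := by
    rintro y ⟨h0, h1, h2⟩
    refine ⟨?_, h0, h2⟩
    rw [ball1, Metric.mem_ball, dist_zero_right]
    have h3 : ∀ j, y j ^ 2 ≤ y 0 ^ 2 := by
      intro j
      refine Fin.cases le_rfl (fun i => ?_) j
      have h4 := h2 i
      have h5 := hab i
      have h6 : -(y 0) ≤ y i.succ := by
        have : (-1) * y 0 ≤ a i * y 0 := mul_le_mul_of_nonneg_right h5.1 h0.le
        linarith
      have h7 : y i.succ ≤ y 0 := by
        have : b i * y 0 ≤ 1 * y 0 := mul_le_mul_of_nonneg_right h5.2.2 h0.le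
        linarith
      exact sq_le_sq' h6 h7
    have h8 : ‖(WithLp.toLp 2 y : E d)‖ ^ 2 < 1 := by
      rw [norm_toLp_sq]
      calc ∑ i, y i ^ 2 ≤ ∑ _i : Fin (d + 1), y 0 ^ 2 := Finset.sum_le_sum fun j _ => h3 j
        _ = ((d : ℝ) + 1) * y 0 ^ 2 := by simp
        _ < ((d : ℝ) + 1) * H1 ^ 2 := by
            refine mul_lt_mul_of_pos_left ?_ (by linarith)
            exact pow_lt_pow_left₀ h1 h0.le (by norm_num)
        _ = H1 := by
            rw [hH1]; field_simp
        _ ≤ 1 := hH1le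
    have h9 : 0 ≤ ‖(WithLp.toLp 2 y : E d)‖ := norm_nonneg _
    nlinarith
  have hfin2 : volume (PP d 1 a b) ≠ ⊤ := by
    rw [vol_PP d 1 a b (fun i => (hab i).2.1)]
    exact ENNReal.mul_ne_top ENNReal.ofReal_ne_top hfin
  have hfinS : volume S ≠ ⊤ := ne_top_of_le_ne_top hfin2 (measure_mono hsub2)
  rw [hSvol]
  constructor
  · calc volume.real (PP d H1 (fun _ => 0) (fun _ => 1)) * ∏ i, (b i - a i) =
        volume.real (PP d H1 a b) := by rw [hreal, mul_comm]
      _ ≤ volume.real S := measureReal_mono hsub1 hfinS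
  · calc volume.real S ≤ volume.real (PP d 1 a b) := measureReal_mono hsub2 hfin2
      _ = volume.real (PP d 1 (fun _ => 0) (fun _ => 1)) * ∏ i, (b i - a i) := by
        rw [hreal, mul_comm]

end Pool.Agent.Helper66.DS
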