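import Mathlib
import Pool.Agent.Helper66.DS.Defs

set_option autoImplicit false

namespace Pool.Agent.Helper66.DS

open MeasureTheory Set

namespace DirDiamx

lemma dir_smul_pos {d : ℕ} {c : ℝ} (hc : 0 < c) (x : E d) : dir (c • x) = dir x := by
  unfold dir
  rw [norm_smul, Real.norm_of_nonneg hc.le, mul_inv, smul_smul]
  congr 1
  field_simp

lemma norm_dir_sub_le {d : ℕ} {z z' : E d} (hz : 1 ≤ ‖z‖) (hz' : 1 ≤ ‖z'‖) :
    ‖dir z - dir z'‖ ≤ 2 * ‖z - z'‖ := by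
  have hu : 0 < ‖z‖ := by linarith
  have hv : 0 < ‖z'‖ := by linarith
  have h1 : dir z - dir z' = ‖z‖⁻¹ • (z - z') + (‖z‖⁻¹ - ‖z'‖⁻¹) • z' := by
    unfold dir
    rw [smul_sub, sub_smul]
    abel
  have h2 : |‖z‖⁻¹ - ‖z'‖⁻¹| * ‖z'‖ ≤ ‖z - z'‖ := by
    have h3 : ‖z‖⁻¹ - ‖z'‖⁻¹ = (‖z'‖ - ‖z‖) / (‖z‖ * ‖z'‖) := by field_simp
    rw [h3, abs_div, abs_of_pos (mul_pos hu hv)]
    have h4 : |‖z'‖ - ‖z‖| / (‖z‖ * ‖z'‖) * ‖z'‖ = |‖z'‖ - ‖z‖| / ‖z‖ := by field_simp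
    rw [h4]
    have h5 : |‖z'‖ - ‖z‖| ≤ ‖z - z'‖ := by
      rw [abs_sub_comm]
      exact abs_norm_sub_norm_le z z'
    calc |‖z'‖ - ‖z‖| / ‖z‖ ≤ |‖z'‖ - ‖z‖| := div_le_self (abs_nonneg _) hz
      _ ≤ _ := h5
  have h6 : ‖z‖⁻¹ ≤ 1 := inv_le_one_of_one_le₀ hz
  calc ‖dir z - dir z'‖ ≤ ‖‖z‖⁻¹ • (z - z')‖ + ‖(‖z‖⁻¹ - ‖z'‖⁻¹) • z'‖ := by
        rw [h1]; exact norm_add_le _ _
    _ = ‖z‖⁻¹ * ‖z - z'‖ + |‖z‖⁻¹ - ‖z'‖⁻¹| * ‖z'‖ := by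
        rw [norm_smul, norm_smul, Real.norm_of_nonneg (by positivity), Real.norm_eq_abs]
    _ ≤ 1 * ‖z - z'‖ + ‖z - z'‖ :=
        add_le_add (mul_le_mul_of_nonneg_right h6 (norm_nonneg _)) h2
    _ = _ := by ring

end DirDiamx

open DirDiamx

theorem dir_diam (d : ℕ) (a b : Fin d → ℝ) (δ : ℝ) (hδ : 0 ≤ δ) (hab : ∀ i, b i - a i ≤ δ)
    (x y : E d) (hx : x ∈ coneCell a b) (hy : y ∈ coneCell a b) :
    ‖dir x - dir y‖ ≤ 2 * d * δ := by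
  obtain ⟨_, hx0, hx1⟩ := hx
  obtain ⟨_, hy0, hy1⟩ := hy
  set z : E d := (x 0)⁻¹ • x with hz
  set z' : E d := (y 0)⁻¹ • y with hz'
  have e1 : dir x = dir z := (dir_smul_pos (inv_pos.2 hx0) x).symm
  have e2 : dir y = dir z' := (dir_smul_pos (inv_pos.2 hy0) y).symm
  have z0 : z 0 = 1 := by
    rw [hz, PiLp.smul_apply, smul_eq_mul, inv_mul_cancel₀ hx0.ne']
  have z0' : z' 0 = 1 := by
    rw [hz', PiLp.smul_apply, smul_eq_mul, inv_mul_cancel₀ hy0.ne']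
  have n1 : 1 ≤ ‖z‖ := by
    have := PiLp.norm_apply_le z 0
    rw [z0] at this
    simpa using this
  have n2 : 1 ≤ ‖z'‖ := by
    have := PiLp.norm_apply_le z' 0
    rw [z0'] at this
    simpa using this
  have hi : ∀ i : Fin d, |z i.succ - z' i.succ| ≤ δ := by
    intro i
    have h1 := hx1 i
    have h2 := hy1 i
    have ez : z i.succ = x i.succ / x 0 := by
      rw [hz, PiLp.smul_apply, smul_eq_mul, div_eq_inv_mul]
    have ez' : z' i.succ = y i.succ / y 0 := by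
      rw [hz', PiLp.smul_apply, smul_eq_mul, div_eq_inv_mul]
    have a1 : a i ≤ z i.succ := by rw [ez, le_div_iff₀ hx0]; exact h1.1
    have a2 : z i.succ < b i := by rw [ez, div_lt_iff₀ hx0]; exact h1.2
    have a3 : a i ≤ z' i.succ := by rw [ez', le_div_iff₀ hy0]; exact h2.1
    have a4 : z' i.succ < b i := by rw [ez', div_lt_iff₀ hy0]; exact h2.2
    have := hab i
    rw [abs_le]
    constructor <;> linarith
  have hnorm : ‖z - z'‖ ≤ d * δ := by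
    rw [EuclideanSpace.norm_eq]
    refine Real.sqrt_le_iff.2 ⟨by positivity, ?_⟩
    rw [Fin.sum_univ_succ]
    have h0 : ‖(z - z') 0‖ ^ 2 = 0 := by
      rw [PiLp.sub_apply, z0, z0']
      simp
    rw [h0, zero_add]
    have h1 : ∀ i : Fin d, ‖(z - z') i.succ‖ ^ 2 ≤ δ ^ 2 := by
      intro i
      rw [PiLp.sub_apply, Real.norm_eq_abs]
      exact pow_le_pow_left₀ (abs_nonneg _) (hi i) 2
    calc ∑ i : Fin d, ‖(z - z') i.succ‖ ^ 2 ≤ ∑ _i : Fin d, δ ^ 2 :=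
          Finset.sum_le_sum fun i _ => h1 i
      _ = (d : ℝ) * δ ^ 2 := by simp
      _ ≤ (d : ℝ) ^ 2 * δ ^ 2 := by
          refine mul_le_mul_of_nonneg_right ?_ (sq_nonneg _)
          have : d ≤ d ^ 2 := Nat.le_self_pow (by norm_num) d
          exact_mod_cast this
      _ = (d * δ) ^ 2 := by ring
  rw [e1, e2]
  calc ‖dir z - dir z'‖ ≤ 2 * ‖z - z'‖ := norm_dir_sub_le n1 n2
    _ ≤ 2 * (d * δ) := by linarith
    _ = _ := by ring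

end Pool.Agent.Helper66.DS
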