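import Mathlib
import Pool.Agent.Helper66.DS.Defs

set_option autoImplicit false

namespace Pool.Agent.Helper66.DS

open MeasureTheory Set

namespace Dom2x

/-- Abel summation with nonnegative tails -/
lemma abel_nonneg : ∀ (n : ℕ) (u c : Fin n → ℝ), Monotone u → (∀ i, 0 ≤ u i) →
    (∀ k : Fin n, 0 ≤ ∑ j ∈ Finset.univ.filter (fun j => k ≤ j), c j) →
    0 ≤ ∑ j, u j * c j
  | 0, u, c, _, _, _ => by simp
  | n + 1, u, c, hu, hu0, hc => by
    have htot : 0 ≤ ∑ j, c j := by
      have := hc 0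
      simpa using this
    have ih := abel_nonneg n (fun j => u j.succ - u 0) (fun j => c j.succ)
      (fun a b hab => by
        have := hu (Fin.succ_le_succ_iff.2 hab)
        simpa using this)
      (fun j => by
        have := hu (Fin.zero_le j.succ)
        simpa using this)
      (fun k => by
        have h := hc k.succ
        have h2 : ∑ j ∈ Finset.univ.filter (fun j : Fin (n + 1) => k.succ ≤ j), c j =
            ∑ j ∈ Finset.univ.filter (fun j : Fin n => k ≤ j), c j.succ := by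
          rw [Finset.sum_filter, Finset.sum_filter, Fin.sum_univ_succ]
          have h3 : ¬ (k.succ ≤ (0 : Fin (n + 1))) := by
            intro h4
            exact absurd (Fin.le_zero_iff.1 h4) (Fin.succ_ne_zero k)
          rw [if_neg h3, zero_add]
          refine Finset.sum_congr rfl fun j _ => ?_
          simp only [Fin.succ_le_succ_iff]
        rw [h2] at h
        exact h)
    have h1 : ∑ j, u j * c j = u 0 * ∑ j, c j + ∑ j : Fin n, (u j.succ - u 0) * c j.succ := by
      rw [Fin.sum_univ_succ, Fin.sum_univ_succ c, mul_add, Finset.mul_sum]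
      rw [add_assoc, ← Finset.sum_add_distrib]
      congr 1
      refine Finset.sum_congr rfl fun j _ => ?_
      ring
    rw [h1]
    exact add_nonneg (mul_nonneg (hu0 0) htot) ih

/-- the largest values have the largest sum -/
lemma top_sum {n : ℕ} (b : Fin n → ℝ) (hb : Monotone b) (k : Fin n) (J : Finset (Fin n))
    (hJ : J.card = (Finset.univ.filter (fun j => k ≤ j)).card) :
    ∑ j ∈ J, b j ≤ ∑ j ∈ Finset.univ.filter (fun j => k ≤ j), b j := by
  classical
  set T : Finset (Fin n) := Finset.univ.filter (fun j => k ≤ j) with hT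
  have hcard : (J \ T).card = (T \ J).card := by
    have h1 := Finset.card_sdiff_add_card_inter J T
    have h2 := Finset.card_sdiff_add_card_inter T J
    rw [Finset.inter_comm T J] at h2
    omega
  have h1 : ∑ j ∈ J \ T, b j ≤ (J \ T).card • b k := by
    refine Finset.sum_le_card_nsmul _ _ _ fun j hj => ?_
    rw [Finset.mem_sdiff, hT, Finset.mem_filter] at hj
    have : ¬ k ≤ j := fun h => hj.2 ⟨Finset.mem_univ _, h⟩
    exact hb (le_of_lt (not_le.1 this))
  have h2 : (T \ J).card • b k ≤ ∑ j ∈ T \ J, b j := by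
    refine Finset.card_nsmul_le_sum _ _ _ fun j hj => ?_
    rw [Finset.mem_sdiff, hT, Finset.mem_filter] at hj
    exact hb hj.1.2
  rw [hcard] at h1
  have e1 : ∑ j ∈ J, b j = ∑ j ∈ J ∩ T, b j + ∑ j ∈ J \ T, b j :=
    (Finset.sum_inter_add_sum_sdiff J T b).symm
  have e2 : ∑ j ∈ T, b j = ∑ j ∈ J ∩ T, b j + ∑ j ∈ T \ J, b j := by
    rw [Finset.inter_comm]
    exact (Finset.sum_inter_add_sum_sdiff T J b).symm
  rw [e1, e2]
  linarith

/-- rearrangement: there is a permutation `π` with `∑ u a ≤ lam ∑ u (b ∘ π)` -/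
lemma exists_rearr {N : ℕ} (u a b : Fin N → ℝ) (lam : ℝ) (hlam : 0 ≤ lam) (hu : ∀ i, 0 ≤ u i)
    (h : ∀ I : Finset (Fin N), ∃ J : Finset (Fin N), J.card = I.card ∧
      ∑ i ∈ I, a i ≤ lam * ∑ i ∈ J, b i) :
    ∃ π : Equiv.Perm (Fin N), ∑ i, u i * a i ≤ lam * ∑ i, u i * b (π i) := by
  classical
  set τ : Equiv.Perm (Fin N) := Tuple.sort u with hτ
  set ρ : Equiv.Perm (Fin N) := Tuple.sort b with hρ
  have hτm : Monotone (u ∘ τ) := Tuple.monotone_sort u
  have hρm : Monotone (b ∘ ρ) := Tuple.monotone_sort b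
  refine ⟨τ.symm.trans ρ, ?_⟩
  have hAbel := abel_nonneg N (u ∘ τ) (fun j => lam * b (ρ j) - a (τ j)) hτm (fun i => hu _) (by
    intro k
    set T : Finset (Fin N) := Finset.univ.filter (fun j => k ≤ j) with hT
    obtain ⟨J, hJc, hJ⟩ := h (T.map τ.toEmbedding)
    rw [Finset.sum_map, Finset.card_map] at *
    have hJ' : ∑ i ∈ J, b i = ∑ j ∈ J.map ρ.symm.toEmbedding, b (ρ j) := by
      rw [Finset.sum_map]
      refine Finset.sum_congr rfl fun i _ => ?_
      simp
    have h2 := top_sum (b ∘ ρ) hρm k (J.map ρ.symm.toEmbedding) (by rw [Finset.card_map]; exact hJc)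
    rw [Finset.sum_sub_distrib, ← Finset.mul_sum]
    have h3 : ∑ i ∈ T, a (τ i) ≤ lam * ∑ j ∈ T, b (ρ j) := by
      refine hJ.trans ?_
      rw [hJ']
      exact mul_le_mul_of_nonneg_left h2 hlam
    linarith)
  have e1 : ∑ i, u i * a i = ∑ j, u (τ j) * a (τ j) :=
    (Equiv.sum_comp τ (fun i => u i * a i)).symm
  have e2 : ∑ i, u i * b ((τ.symm.trans ρ) i) = ∑ j, u (τ j) * b (ρ j) := by
    rw [← Equiv.sum_comp τ (fun i => u i * b ((τ.symm.trans ρ) i))]
    simp
  rw [e1, e2, Finset.mul_sum]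
  have e3 : ∑ j, (u ∘ τ) j * (lam * b (ρ j) - a (τ j)) =
      ∑ j, lam * (u (τ j) * b (ρ j)) - ∑ j, u (τ j) * a (τ j) := by
    rw [← Finset.sum_sub_distrib]
    refine Finset.sum_congr rfl fun j _ => ?_
    simp only [Function.comp_apply]
    ring
  rw [e3] at hAbel
  linarith

/-- norming functional of a seminorm -/
lemma exists_norming {N : ℕ} (p : Seminorm ℝ (Fin N → ℝ)) (x : Fin N → ℝ) (hx : x ≠ 0) :
    ∃ f : (Fin N → ℝ) →ₗ[ℝ] ℝ, (∀ z, f z ≤ p z) ∧ f x = p x := by
  have hH : ∀ c : ℝ, c • x = 0 → (RingHom.id ℝ c) • (p x) = 0 := by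
    intro c hc
    rcases smul_eq_zero.1 hc with h | h
    · rw [h]; simp
    · exact absurd h hx
  set F : (Fin N → ℝ) →ₗ.[ℝ] ℝ := LinearPMap.mkSpanSingleton' (σ := RingHom.id ℝ) x (p x) hH with hF
  obtain ⟨g, hg1, hg2⟩ := exists_extension_of_le_sublinear F p
    (fun c hc z => by rw [map_smul_eq_mul, Real.norm_of_nonneg hc.le])
    (fun a b => map_add_le_add p a b) (by
      rintro ⟨z, hz⟩
      obtain ⟨c, rfl⟩ := Submodule.mem_span_singleton.1 hz
      have h1 : F ⟨c • x, hz⟩ = c • p x := LinearPMap.mkSpanSingleton'_apply x (p x) hH c hz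
      rw [h1]
      change c • p x ≤ p (c • x)
      rw [map_smul_eq_mul, smul_eq_mul, Real.norm_eq_abs]
      exact mul_le_mul_of_nonneg_right (le_abs_self c) (apply_nonneg p x))
  refine ⟨g, hg2, ?_⟩
  have h1 := hg1 ⟨x, Submodule.mem_span_singleton_self x⟩
  have h2 : F ⟨x, Submodule.mem_span_singleton_self x⟩ = p x :=
    LinearPMap.mkSpanSingleton'_apply_self x (p x) hH _
  rw [h2] at h1
  exact h1

end Dom2x

open Dom2x

theorem kyfan_dominance {N : ℕ} (p : Seminorm ℝ (Fin N → ℝ))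
    (hperm : ∀ (σ : Equiv.Perm (Fin N)) (x : Fin N → ℝ), p (fun i => x (σ i)) = p x)
    (hsign : ∀ (s : Fin N → ℝ), (∀ i, s i = 1 ∨ s i = -1) →
      ∀ x : Fin N → ℝ, p (fun i => s i * x i) = p x)
    (x y : Fin N → ℝ) (lam : ℝ) (hlam : 0 ≤ lam)
    (h : ∀ I : Finset (Fin N), ∃ J : Finset (Fin N), J.card = I.card ∧
      ∑ i ∈ I, |x i| ≤ lam * ∑ i ∈ J, |y i|) :
    p x ≤ lam * p y := by
  classical
  rcases eq_or_ne x 0 with rfl | hx
  · rw [map_zero]
    exact mul_nonneg hlam (apply_nonneg p y)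
  obtain ⟨f, hf1, hf2⟩ := exists_norming p x hx
  set φ : Fin N → ℝ := fun i => f (Pi.single i 1) with hφ
  have hf : ∀ z, f z = ∑ i, φ i * z i := by
    intro z
    have h1 : z = ∑ i, z i • (Pi.single i (1 : ℝ) : Fin N → ℝ) := by
      funext j
      simp [Finset.sum_apply, Pi.single_apply]
    conv_lhs => rw [h1]
    rw [map_sum]
    refine Finset.sum_congr rfl fun i _ => ?_
    rw [map_smul, smul_eq_mul, mul_comm]
  obtain ⟨π, hπ⟩ := exists_rearr (fun i => |φ i|) (fun i => |x i|) (fun i => |y i|) lam hlam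
    (fun i => abs_nonneg _) h
  -- signs
  set sg : ℝ → ℝ := fun t => if 0 ≤ t then 1 else -1 with hsg
  have hsg1 : ∀ t, sg t = 1 ∨ sg t = -1 := by
    intro t
    simp only [hsg]
    split_ifs
    · exact Or.inl rfl
    · exact Or.inr rfl
  have hsg2 : ∀ t, sg t * t = |t| := by
    intro t
    simp only [hsg]
    split_ifs with h
    · rw [one_mul, abs_of_nonneg h]
    · rw [abs_of_neg (not_le.1 h)]; ring
  set z : Fin N → ℝ := fun i => (sg (φ i) * sg (y (π i))) * y (π i) with hz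
  have hpz : p z = p y := by
    have h1 := hsign (fun i => sg (φ i) * sg (y (π i))) (by
      intro i
      rcases hsg1 (φ i) with h1 | h1 <;> rcases hsg1 (y (π i)) with h2 | h2 <;>
        rw [h1, h2] <;> norm_num) (fun i => y (π i))
    rw [hz, h1]
    exact hperm π y
  have hfz : f z = ∑ i, |φ i| * |y (π i)| := by
    rw [hf]
    refine Finset.sum_congr rfl fun i _ => ?_
    rw [hz, ← hsg2 (φ i), ← hsg2 (y (π i))]
    ring
  calc p x = f x := hf2.symm
    _ = ∑ i, φ i * x i := hf x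
    _ ≤ ∑ i, |φ i| * |x i| := by
        refine Finset.sum_le_sum fun i _ => ?_
        rw [← abs_mul]
        exact le_abs_self _
    _ ≤ lam * ∑ i, |φ i| * |y (π i)| := hπ
    _ = lam * f z := by rw [hfz]
    _ ≤ lam * p z := mul_le_mul_of_nonneg_left (hf1 z) hlam
    _ = lam * p y := by rw [hpz]

end Pool.Agent.Helper66.DS
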