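import Mathlib
import Pool.Agent.Helper66.DS.Defs

set_option autoImplicit false

namespace Pool.Agent.Helper66.DS

open MeasureTheory Set

namespace Thrx

lemma measurable_aa {d : ℕ} (ξ : E d) : Measurable (aa ξ) := by
  unfold aa dir
  fun_prop

lemma norm_dir_le {d : ℕ} (x : E d) : ‖dir x‖ ≤ 1 := by
  unfold dir
  rw [norm_smul, norm_inv, norm_norm]
  rcases eq_or_ne (‖x‖) 0 with h | h
  · rw [h]; simp
  · rw [inv_mul_cancel₀ h]

lemma abs_aa_le {d : ℕ} {ξ : E d} (hξ : ‖ξ‖ = 1) (x : E d) : |aa ξ x| ≤ 1 := by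
  unfold aa
  calc |inner ℝ ξ (dir x)| ≤ ‖ξ‖ * ‖dir x‖ := abs_real_inner_le_norm _ _
    _ ≤ 1 * 1 := by
        rw [hξ]
        exact mul_le_mul_of_nonneg_left (norm_dir_le x) zero_le_one
    _ = 1 := one_mul 1

/-- a nonnegative real bounded by all small multiples of a constant vanishes -/
lemma eq_zero_of_le_mul {v C : ℝ} (hv : 0 ≤ v) (h : ∀ δ : ℝ, 0 < δ → δ ≤ 1 / 4 → v ≤ C * δ) :
    v = 0 := by
  refine le_antisymm ?_ hv
  by_contra hne
  push Not at hne
  have hC : 0 < C := by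
    have := h (1 / 4) (by norm_num) le_rfl
    by_contra hC
    push Not at hC
    linarith
  have h1 := h (min (1 / 4) (v / (2 * C))) (by positivity) (min_le_left _ _)
  have h2 : C * min (1 / 4) (v / (2 * C)) ≤ C * (v / (2 * C)) :=
    mul_le_mul_of_nonneg_left (min_le_right _ _) hC.le
  have h3 : C * (v / (2 * C)) = v / 2 := by field_simp
  linarith

/-- the level sets of `|aa ξ|` are null sets; the bounds of `annulus_upper` and `belt_upper` are
hypotheses -/
lemma level_null (d : ℕ) (hann : ∃ C : ℝ, 0 < C ∧ ∀ ξ : E d, ‖ξ‖ = 1 →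
      ∀ τ δ : ℝ, 1 / 2 ≤ τ → τ ≤ 1 → 0 ≤ δ → δ ≤ 1 / 4 →
        volume.real {x | x ∈ ball1 d ∧ 1 / 4 ≤ |aa ξ x| ∧
            |qq ξ x - Real.sqrt (1 - τ ^ 2)| ≤ δ}
          ≤ C * (Real.sqrt (1 - τ ^ 2) + δ) ^ (d - 1) * δ)
    (hbelt : ∃ C : ℝ, 0 < C ∧ ∀ ξ : E d, ‖ξ‖ = 1 →
      ∀ τ δ : ℝ, 0 ≤ τ → τ ≤ 1 / 2 → 0 ≤ δ → δ ≤ 1 / 4 →
        volume.real {x | x ∈ ball1 d ∧ |(|aa ξ x|) - τ| ≤ δ} ≤ C * δ)
    (ξ : E d) (hξ : ‖ξ‖ = 1) (s : ℝ) :
    volume {x | x ∈ ball1 d ∧ |aa ξ x| = s} = 0 := by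
  have hfin : ∀ S : Set (E d), volume {x | x ∈ ball1 d ∧ x ∈ S} ≠ ⊤ := fun S =>
    ne_top_of_le_ne_top (measure_ball_lt_top (x := (0 : E d)) (r := 1)).ne
      (measure_mono fun x hx => hx.1)
  have hreal : volume.real {x | x ∈ ball1 d ∧ |aa ξ x| = s} = 0 := by
    rcases lt_or_ge s 0 with hs | hs
    · have : {x | x ∈ ball1 d ∧ |aa ξ x| = s} = ∅ := by
        ext x
        simp only [Set.mem_ofPred_eq, Set.mem_empty_iff_false, iff_false, not_and]
        intro _ h
        have := abs_nonneg (aa ξ x)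
        linarith
      rw [this]; simp
    rcases lt_or_ge 1 s with hs1 | hs1
    · have : {x | x ∈ ball1 d ∧ |aa ξ x| = s} = ∅ := by
        ext x
        simp only [Set.mem_ofPred_eq, Set.mem_empty_iff_false, iff_false, not_and]
        intro _ h
        have := abs_aa_le hξ x
        linarith
      rw [this]; simp
    rcases le_total s (1 / 2) with h2 | h2
    · obtain ⟨C, hC, hb⟩ := hbelt
      refine eq_zero_of_le_mul (C := C) measureReal_nonneg fun δ hδ hδ4 => ?_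
      refine le_trans ?_ (hb ξ hξ s δ hs h2 hδ.le hδ4)
      refine measureReal_mono ?_ (hfin _)
      rintro x ⟨hx, hxs⟩
      refine ⟨hx, ?_⟩
      rw [hxs]
      simpa using hδ.le
    · obtain ⟨C, hC, hb⟩ := hann
      refine eq_zero_of_le_mul (C := C * 2 ^ (d - 1)) measureReal_nonneg fun δ hδ hδ4 => ?_
      have h3 : Real.sqrt (1 - s ^ 2) ≤ 1 := by
        refine Real.sqrt_le_iff.2 ⟨zero_le_one, ?_⟩
        have := sq_nonneg s
        linarith
      have h4 : (Real.sqrt (1 - s ^ 2) + δ) ^ (d - 1) ≤ 2 ^ (d - 1) :=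
        pow_le_pow_left₀ (by positivity) (by linarith) _
      have h5 : C * (Real.sqrt (1 - s ^ 2) + δ) ^ (d - 1) * δ ≤ C * 2 ^ (d - 1) * δ :=
        mul_le_mul_of_nonneg_right (mul_le_mul_of_nonneg_left h4 hC.le) hδ.le
      refine le_trans ?_ h5
      refine le_trans ?_ (hb ξ hξ s δ h2 hs1 hδ.le hδ4)
      refine measureReal_mono ?_ (hfin _)
      rintro x ⟨hx, hxs⟩
      refine ⟨hx, ?_, ?_⟩
      · rw [hxs]; linarith
      · have : aa ξ x ^ 2 = s ^ 2 := by rw [← sq_abs, hxs]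
        unfold qq
        rw [this]
        simpa using hδ.le
  exact (measureReal_eq_zero_iff (hfin _)).1 hreal

end Thrx

open Thrx

theorem threshold_of (d : ℕ) (hann : ∃ C : ℝ, 0 < C ∧ ∀ ξ : E d, ‖ξ‖ = 1 →
      ∀ τ δ : ℝ, 1 / 2 ≤ τ → τ ≤ 1 → 0 ≤ δ → δ ≤ 1 / 4 →
        volume.real {x | x ∈ ball1 d ∧ 1 / 4 ≤ |aa ξ x| ∧
            |qq ξ x - Real.sqrt (1 - τ ^ 2)| ≤ δ}
          ≤ C * (Real.sqrt (1 - τ ^ 2) + δ) ^ (d - 1) * δ)
    (hbelt : ∃ C : ℝ, 0 < C ∧ ∀ ξ : E d, ‖ξ‖ = 1 →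
      ∀ τ δ : ℝ, 0 ≤ τ → τ ≤ 1 / 2 → 0 ≤ δ → δ ≤ 1 / 4 →
        volume.real {x | x ∈ ball1 d ∧ |(|aa ξ x|) - τ| ≤ δ} ≤ C * δ)
    (ξ : E d) (hξ : ‖ξ‖ = 1) (t : ℝ) (ht0 : 0 < t)
    (ht1 : t ≤ volume.real (ball1 d)) :
    ∃ τ : ℝ, 0 ≤ τ ∧ τ ≤ 1 ∧ volume.real {x | x ∈ ball1 d ∧ τ ≤ |aa ξ x|} = t := by
  have hnull := level_null d hann hbelt ξ hξ
  have hg : Measurable (fun x : E d => |aa ξ x|) := by
    have := measurable_aa ξ
    fun_prop
  have hball : MeasurableSet (ball1 d) := measurableSet_ball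
  set μ : Measure (E d) := volume.restrict (ball1 d) with hμ
  have : IsFiniteMeasure μ := by
    refine ⟨?_⟩
    rw [hμ, Measure.restrict_apply_univ]
    exact measure_ball_lt_top
  set ν : Measure ℝ := μ.map (fun x : E d => |aa ξ x|) with hν
  have : IsFiniteMeasure ν := Measure.isFiniteMeasure_map μ _
  have hνapp : ∀ S : Set ℝ, MeasurableSet S → ν S = volume {x | x ∈ ball1 d ∧ |aa ξ x| ∈ S} := by
    intro S hS
    rw [hν, Measure.map_apply hg hS, hμ, Measure.restrict_apply (hg hS)]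
    congr 1
    ext x
    simp only [Set.mem_inter_iff, Set.mem_preimage, Set.mem_ofPred_eq]
    exact and_comm
  have : NullSingletonClass ν := by
    refine ⟨fun s => ?_⟩
    rw [hνapp _ (measurableSet_singleton s)]
    exact hnull s
  -- the distribution function
  have hcont : Continuous fun b : ℝ => ∫ _ in (0 : ℝ)..b, (1 : ℝ) ∂ν :=
    intervalIntegral.continuous_primitive (fun a b => intervalIntegrable_const) 0
  have hF : ∀ b : ℝ, 0 ≤ b → ∫ _ in (0 : ℝ)..b, (1 : ℝ) ∂ν = ν.real (Set.Ioc 0 b) := by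
    intro b hb
    rw [intervalIntegral.integral_of_le hb, setIntegral_const, smul_eq_mul, mul_one]
  have hneg : ν (Set.Iic 0) = 0 := by
    have h1 : Set.Iic (0 : ℝ) ⊆ Set.Iio 0 ∪ {0} := by
      intro y hy
      rcases lt_or_eq_of_le (show y ≤ 0 from hy) with h | h
      · exact Or.inl h
      · exact Or.inr h
    refine measure_mono_null h1 (measure_union_null ?_ (measure_singleton 0))
    rw [hνapp _ measurableSet_Iio]
    have : {x : E d | x ∈ ball1 d ∧ |aa ξ x| ∈ Set.Iio (0 : ℝ)} = ∅ := by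
      ext x
      simp only [Set.mem_ofPred_eq, Set.mem_Iio, Set.mem_empty_iff_false, iff_false, not_and, not_lt]
      exact fun _ => abs_nonneg _
    rw [this, measure_empty]
  have htot : ν.real Set.univ = volume.real (ball1 d) := by
    unfold Measure.real
    rw [hνapp _ MeasurableSet.univ]
    congr 2
    ext x
    simp
  -- value at `b`
  have hval : ∀ b : ℝ, 0 ≤ b → volume.real {x | x ∈ ball1 d ∧ b ≤ |aa ξ x|} =
      volume.real (ball1 d) - ν.real (Set.Ioc 0 b) := by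
    intro b hb
    have h1 : volume.real {x | x ∈ ball1 d ∧ b ≤ |aa ξ x|} = ν.real (Set.Ici b) := by
      unfold Measure.real
      rw [hνapp _ measurableSet_Ici]
      rfl
    have h2 : ν.real (Set.Ici b) = ν.real (Set.Ioi b) := by
      unfold Measure.real
      rw [measure_congr Ioi_ae_eq_Ici]
    have h3 : ν.real (Set.Ioc 0 b) = ν.real (Set.Iic b) := by
      unfold Measure.real
      congr 1
      refine measure_congr ?_
      have h4 : Set.Iic b = Set.Ioc 0 b ∪ Set.Iic 0 := by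
        ext y
        simp only [Set.mem_Iic, Set.mem_union, Set.mem_Ioc]
        constructor
        · intro hy
          rcases le_or_gt y 0 with h | h
          · exact Or.inr h
          · exact Or.inl ⟨h, hy⟩
        · rintro (h | h)
          · exact h.2
          · linarith
      rw [h4]
      exact (union_ae_eq_left_of_ae_eq_empty (measure_eq_zero_iff_ae_notMem.1 hneg |> fun h => by
        rw [ae_eq_empty]; exact hneg)).symm
    have h5 : ν.real (Set.Iic b) + ν.real (Set.Ioi b) = ν.real Set.univ := by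
      have := measureReal_add_measureReal_compl (μ := ν) (s := Set.Iic b) measurableSet_Iic
      rw [Set.compl_Iic] at this
      exact this
    rw [h1, h2, h3, ← htot]
    linarith
  have h20 : volume.real {x : E d | x ∈ ball1 d ∧ (2 : ℝ) ≤ |aa ξ x|} = 0 := by
    have : {x : E d | x ∈ ball1 d ∧ (2 : ℝ) ≤ |aa ξ x|} = ∅ := by
      ext x
      simp only [Set.mem_ofPred_eq, Set.mem_empty_iff_false, iff_false, not_and]
      intro _ h
      have := abs_aa_le hξ x
      linarith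
    rw [this]; simp
  have hF2 : ∫ _ in (0 : ℝ)..2, (1 : ℝ) ∂ν = volume.real (ball1 d) := by
    rw [hF 2 (by norm_num)]
    have := hval 2 (by norm_num)
    rw [h20] at this
    linarith
  have hF0 : ∫ _ in (0 : ℝ)..0, (1 : ℝ) ∂ν = 0 := intervalIntegral.integral_same
  have hivt := intermediate_value_Icc (show (0 : ℝ) ≤ 2 by norm_num) hcont.continuousOn
  have hmem : volume.real (ball1 d) - t ∈ Set.Icc (∫ _ in (0 : ℝ)..0, (1 : ℝ) ∂ν)
      (∫ _ in (0 : ℝ)..2, (1 : ℝ) ∂ν) := by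
    rw [hF0, hF2]
    constructor <;> linarith
  obtain ⟨b, ⟨hb0, _⟩, hb⟩ := hivt hmem
  have hb' : volume.real {x | x ∈ ball1 d ∧ b ≤ |aa ξ x|} = t := by
    rw [hval b hb0]
    have h1 : ∫ _ in (0 : ℝ)..b, (1 : ℝ) ∂ν = volume.real (ball1 d) - t := hb
    rw [hF b hb0] at h1
    linarith
  refine ⟨b, hb0, ?_, hb'⟩
  by_contra hb1
  push Not at hb1
  have : {x : E d | x ∈ ball1 d ∧ b ≤ |aa ξ x|} = ∅ := by
    ext x
    simp only [Set.mem_ofPred_eq, Set.mem_empty_iff_false, iff_false, not_and]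
    intro _ h
    have := abs_aa_le hξ x
    linarith
  rw [this] at hb'
  simp at hb'
  linarith

end Pool.Agent.Helper66.DS
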